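import Pool.Agent.helper92.ISO.SpecC

/-!
# Project ISO (MP_069684_lc): row LVW
-/

set_option autoImplicit false

namespace Pool.Agent.ISO

open Pool.Agent.PB

theorem LVW_enc {M n N : ℕ} (h : M * n ≤ N) (X : Fin M → Fin n → Bool) (e : Fin M) (i : Fin n) :
    enc N X (Fin.castLE h (finProdFinEquiv (e, i))) = X e i := by
  unfold enc
  have h1 : ((Fin.castLE h (finProdFinEquiv (e, i)) : Fin N) : ℕ) < M * n := (finProdFinEquiv (e, i)).2
  rw [dif_pos h1]
  have h2 : (⟨((Fin.castLE h (finProdFinEquiv (e, i)) : Fin N) : ℕ), h1⟩ : Fin (M * n)) = finProdFinEquiv (e, i) :=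
    Fin.ext rfl
  rw [h2, Equiv.symm_apply_apply]

theorem LVW_proof : LVW_stmt := by
  intro n w M R N f h K X Y
  unfold listV
  rw [decide_eq_true_iff]
  have e1 : ∀ i : Fin (R + M * w), Fin.append (enc N X) Y (Fin.natAdd N i) = Y i := fun i =>
    Fin.append_right _ _ i
  have e2 : ∀ (e : Fin M) (i : Fin n), Fin.append (enc N X) Y
      (Fin.castAdd (R + M * w) (Fin.castLE h (finProdFinEquiv (e, i)))) = X e i := by
    intro e i
    rw [Fin.append_left]
    exact LVW_enc h X e i
  simp only [e1, e2]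
  constructor
  · rintro ⟨j, h1, h2⟩
    refine ⟨j, fun e i => Y (Fin.natAdd R (finProdFinEquiv (e, i))), ?_, ?_⟩
    · funext i
      refine Fin.addCases (fun a => ?_) (fun a => ?_) i
      · rw [h1 a]
        unfold encW
        rw [Fin.append_left]
      · unfold encW
        rw [Fin.append_right]
        show _ = Y (Fin.natAdd R (finProdFinEquiv ((finProdFinEquiv.symm a).1, (finProdFinEquiv.symm a).2)))
        rw [Prod.mk.eta, Equiv.apply_symm_apply]
    · intro e
      rcases h2 e with ⟨h3, h4⟩ | ⟨h3, h4⟩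
      · exact Or.inl ⟨h3, funext h4⟩
      · exact Or.inr ⟨h3, h4⟩
  · rintro ⟨j, z, rfl, h2⟩
    have e3 : ∀ (e : Fin M) (i : Fin w), encW j z (Fin.natAdd R (finProdFinEquiv (e, i))) = z e i := by
      intro e i
      unfold encW
      rw [Fin.append_right]
      show z (finProdFinEquiv.symm (finProdFinEquiv (e, i))).1 (finProdFinEquiv.symm (finProdFinEquiv (e, i))).2 = _
      rw [Equiv.symm_apply_apply]
    refine ⟨j, fun j' => ?_, fun e => ?_⟩
    · unfold encW
      rw [Fin.append_left]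
    · simp only [e3]
      rcases h2 e with ⟨h3, h4⟩ | ⟨h3, h4⟩
      · exact Or.inl ⟨h3, fun i => by rw [h4]⟩
      · exact Or.inr ⟨h3, h4⟩

end Pool.Agent.ISO
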