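import Pool.Agent.helper92.ISO.SpecG

/-!
# Project ISO (MP_069684_lc): row PTL
-/

set_option autoImplicit false

namespace Pool.Agent.ISO

open Classical in
/-- one step -/
theorem PTL_step {α ι : Type} [Fintype α] [Nonempty α] (hit : ι → α → Prop) (q lam : ℝ) (hl0 : 0 < lam)
    (hl1 : lam ≤ 1) (hq : 0 ≤ q)
    (h : ∀ μ : α → ℝ, (∀ a, 0 ≤ μ a) → ∑ a, μ a = 1 → ∃ i, q ≤ ∑ a with hit i a, μ a)
    (F : α → ℝ) (hF : ∀ a, 0 < F a) :
    ∃ i, ∑ a, F a * Real.exp (-(lam * if hit i a then 1 else 0)) ≤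
      (∑ a, F a) * Real.exp (-(lam * (1 - lam) * q)) := by
  set S := ∑ a, F a with hS
  have hSp : 0 < S := Finset.sum_pos (fun a _ => hF a) Finset.univ_nonempty
  obtain ⟨i, hi⟩ := h (fun a => F a / S) (fun a => (div_pos (hF a) hSp).le) (by
    rw [← Finset.sum_div, ← hS, div_self hSp.ne'])
  refine ⟨i, ?_⟩
  rw [← Finset.sum_div, le_div_iff₀ hSp] at hi
  have h1 : ∑ a, F a * Real.exp (-(lam * if hit i a then 1 else 0)) =
      S - (1 - Real.exp (-lam)) * ∑ a with hit i a, F a := by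
    rw [Finset.sum_filter, Finset.mul_sum, hS, ← Finset.sum_sub_distrib]
    refine Finset.sum_congr rfl fun a _ => ?_
    by_cases ha : hit i a
    · rw [if_pos ha, if_pos ha, mul_one]
      ring
    · rw [if_neg ha, if_neg ha, mul_zero, neg_zero, Real.exp_zero]
      ring
  have h2 : Real.exp (-lam) ≤ 1 - lam + lam ^ 2 := by
    have h3 := Real.abs_exp_sub_one_sub_id_le (x := -lam) (by rw [abs_neg, abs_of_pos hl0]; exact hl1)
    have h4 := (abs_le.1 h3).2
    have h5 : (-lam) ^ 2 = lam ^ 2 := by ring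
    linarith
  have h3 : 0 ≤ 1 - Real.exp (-lam) := by
    have := Real.exp_le_one_iff.2 (by linarith : -lam ≤ 0)
    linarith
  have h6 : lam * (1 - lam) * q ≤ (1 - Real.exp (-lam)) * q := by
    refine mul_le_mul_of_nonneg_right ?_ hq
    nlinarith
  have h7 := Real.add_one_le_exp (-(lam * (1 - lam) * q))
  rw [h1]
  calc S - (1 - Real.exp (-lam)) * ∑ a with hit i a, F a ≤ S - (1 - Real.exp (-lam)) * (q * S) := by
        have := mul_le_mul_of_nonneg_left hi h3
        linarith
    _ = S * (1 - (1 - Real.exp (-lam)) * q) := by ring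
    _ ≤ S * Real.exp (-(lam * (1 - lam) * q)) := mul_le_mul_of_nonneg_left (by linarith) hSp.le

open Classical in
theorem PTL_cons {α ι : Type} (hit : ι → α → Prop) (k : ℕ) (L : Fin k → ι) (i : ι) (a : α) :
    ((Finset.univ.filter fun j => hit ((Fin.cons i L : Fin (k + 1) → ι) j) a).card : ℝ) =
      (if hit i a then 1 else 0) + ((Finset.univ.filter fun j => hit (L j) a).card : ℝ) := by
  rw [Finset.card_filter, Finset.card_filter, Fin.sum_univ_succ]
  simp only [Fin.cons_zero, Fin.cons_succ]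
  push_cast
  rfl

open Classical in
theorem PTL_list {α ι : Type} [Fintype α] [Nonempty α] (hit : ι → α → Prop) (q lam : ℝ) (hl0 : 0 < lam)
    (hl1 : lam ≤ 1) (hq : 0 ≤ q)
    (h : ∀ μ : α → ℝ, (∀ a, 0 ≤ μ a) → ∑ a, μ a = 1 → ∃ i, q ≤ ∑ a with hit i a, μ a) (k : ℕ) :
    ∃ L : Fin k → ι, ∑ a, Real.exp (-(lam * ((Finset.univ.filter fun j => hit (L j) a).card : ℝ))) ≤
      Fintype.card α * Real.exp (-(lam * (1 - lam) * q * k)) := by
  induction k with
  | zero =>
    refine ⟨Fin.elim0, ?_⟩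
    simp
  | succ k ih =>
    obtain ⟨L, hL⟩ := ih
    obtain ⟨i, hi⟩ := PTL_step hit q lam hl0 hl1 hq h
      (fun a => Real.exp (-(lam * ((Finset.univ.filter fun j => hit (L j) a).card : ℝ)))) fun a => Real.exp_pos _
    refine ⟨Fin.cons i L, ?_⟩
    have h1 : ∑ a, Real.exp (-(lam * ((Finset.univ.filter fun j =>
          hit ((Fin.cons i L : Fin (k + 1) → ι) j) a).card : ℝ))) =
        ∑ a, Real.exp (-(lam * ((Finset.univ.filter fun j => hit (L j) a).card : ℝ))) *
          Real.exp (-(lam * if hit i a then 1 else 0)) := by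
      refine Finset.sum_congr rfl fun a _ => ?_
      rw [PTL_cons, ← Real.exp_add]
      congr 1
      ring
    rw [h1]
    refine hi.trans ?_
    refine (mul_le_mul_of_nonneg_right hL (Real.exp_pos _).le).trans (le_of_eq ?_)
    rw [mul_assoc, ← Real.exp_add]
    congr 2
    push_cast
    ring

theorem PTL_proof : PTL_stmt := by
  classical
  intro α ι _ _ hit q lam k hl0 hl1 hq h
  have h' : ∀ μ : α → ℝ, (∀ a, 0 ≤ μ a) → ∑ a, μ a = 1 → ∃ i, q ≤ ∑ a with hit i a, μ a := by
    intro μ h1 h2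
    obtain ⟨i, hi⟩ := h μ h1 h2
    refine ⟨i, hi.trans (le_of_eq ?_)⟩
    congr
  obtain ⟨L, hL⟩ := PTL_list hit q lam hl0 hl1 hq h' k
  refine ⟨L, fun a => ?_⟩
  have hc : (0 : ℝ) < Fintype.card α := by exact_mod_cast Fintype.card_pos
  have h1 : Real.exp (-(lam * ((Finset.univ.filter fun j => hit (L j) a).card : ℝ))) ≤
      Fintype.card α * Real.exp (-(lam * (1 - lam) * q * k)) := by
    refine le_trans ?_ hL
    exact Finset.single_le_sum (f := fun a => Real.exp (-(lam * ((Finset.univ.filter fun j => hit (L j) a).card : ℝ))))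
      (fun b _ => (Real.exp_pos _).le) (Finset.mem_univ a)
  have h2 := Real.log_le_log (Real.exp_pos _) h1
  rw [Real.log_exp, Real.log_mul hc.ne' (Real.exp_pos _).ne', Real.log_exp] at h2
  have h3 : (1 - lam) * q * k - Real.log (Fintype.card α) / lam ≤
      ((Finset.univ.filter fun j => hit (L j) a).card : ℝ) := by
    rw [← mul_le_mul_iff_right₀ hl0]
    have e : lam * ((1 - lam) * q * k - Real.log (Fintype.card α) / lam) =
        lam * (1 - lam) * q * k - Real.log (Fintype.card α) := by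
      field_simp
    rw [e]
    linarith
  refine h3.trans (le_of_eq ?_)
  congr

end Pool.Agent.ISO
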