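import Pool.Agent.helper92.ISO.SpecC
import Pool.Agent.helper97.PB.APP
import Pool.Agent.helper30.PB.SUB
import Pool.Agent.helper32.PB.CMP
import Pool.Agent.helper79.PB.CLP
import Pool.Agent.helper53.PB.DNF

/-!
# Project ISO (MP_069684_lc): row UNN
-/

set_option autoImplicit false

namespace Pool.Agent.ISO

open Pool.Agent.PB

theorem UNN_mono {n : ℕ} {F : BF n} {s t : ℕ} (h : Size std F s) (hst : s ≤ t) : Size std F t := by
  obtain ⟨l, h1, h2, h3⟩ := h
  exact ⟨l, h1, h2.trans hst, h3⟩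

theorem UNN_false (n : ℕ) : Size std (fun _ : Fin n → Bool => false) 1 :=
  ⟨[fun x => (gConst false).2 fun i => (Fin.elim0 i : BF n) x],
    Prog.step [] (gConst false) (fun i => Fin.elim0 i) Prog.nil (by simp [std]) (fun i => Fin.elim0 i), by simp,
    Or.inl (by simp [gConst])⟩

theorem UNN_dnf (hD : DNF_stmt) : (∀ A : Lang, InNPPoly A → InPPoly A) → ∀ c : ℕ, ∃ c' : ℕ, ∀ (n w : ℕ) (f : BF (n + w)) (F : BF n),
    w ≤ n ^ c + c → Size std f (n ^ c + c) → (∀ x, F x = true ↔ ∃ y, f (Fin.append x y) = true) →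
      Size std F (n ^ c' + c') := by
  classical
  intro hPN c
  let S : (n : ℕ) → Set (BF n) := fun n => {F | ∃ w : ℕ, w ≤ n ^ c + c ∧ ∃ f : BF (n + w), Size std f (n ^ c + c) ∧
    ∀ x, F x = true ↔ ∃ y, f (Fin.append x y) = true}
  let sz : (n : ℕ) → BF n → ℕ := fun n F => sInf {s | Size std F s}
  have hsz : ∀ (n : ℕ) (F : BF n), Size std F (sz n F) := fun n F => Nat.sInf_mem (hD.1 n F)
  have hc : ∀ n : ℕ, 1 ≤ n ^ c + c := by
    intro n
    rcases Nat.eq_zero_or_pos c with h | h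
    · subst h
      simp
    · omega
  have hne : ∀ n, (S n).Nonempty := fun n =>
    ⟨fun _ => false, 0, Nat.zero_le _, fun _ => false, UNN_mono (UNN_false _) (hc n), fun x => by simp⟩
  have hmax : ∀ n, ∃ F ∈ S n, ∀ F' ∈ S n, sz n F' ≤ sz n F := fun n =>
    Set.exists_max_image (S n) (sz n) (Set.toFinite _) (hne n)
  choose A hA hAmax using hmax
  obtain ⟨c', hc'⟩ := hPN A ⟨c, fun n => by
    obtain ⟨w, h1, f, h2, h3⟩ := hA n
    exact ⟨w, h1, f, h2, h3⟩⟩
  refine ⟨c', fun n w f F h1 h2 h3 => ?_⟩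
  have h4 : F ∈ S n := ⟨w, h1, f, h2, h3⟩
  have h5 : sz n (A n) ≤ n ^ c' + c' := Nat.sInf_le (hc' n)
  exact UNN_mono (hsz n F) ((hAmax n F h4).trans h5)

theorem UNN_proof : UNN_stmt := UNN_dnf (DNF (CLP (CMP APP SUB)))

end Pool.Agent.ISO
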